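import Pool.Agent.Helper83.EIN2.Goals

/-!
# Project EIN2, packet LLC: three solutions `LL` near
-/

set_option autoImplicit false

namespace Pool.Agent.Helper98.EIN2

open Finset Topology Filter Pool.Agent.Helper83.EIN Pool.Agent.Helper83.EIN2

theorem FLL_cd : ContDiff ℝ 1 (fun z : (ℝ × ℝ × ℝ) × (Fin 12 → ℝ) ↦
    FLL z.1.1 z.1.2.1 z.1.2.2 z.2) := by
  unfold FLL lenLL
  rw [contDiff_pi]
  intro i
  fin_cases i <;> simp <;> fun_prop

theorem cb {c x M : ℝ} (h0 : 0 ≤ c) (h1 : c ≤ 1) (hx : |x| ≤ M) : |c * x| ≤ M := by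
  rw [abs_mul, abs_of_nonneg h0]
  exact (mul_le_mul_of_nonneg_right h1 (abs_nonneg x)).trans (by rwa [one_mul])

theorem ab2 {x y M N : ℝ} (hx : |x| ≤ M) (hy : |y| ≤ N) : |x + y| ≤ M + N :=
  (abs_add_le x y).trans (add_le_add hx hy)

/-- The lengths in the box `|p i| ≤ M`. -/
theorem len_bd {a β t M : ℝ} {p : Fin 12 → ℝ} (a0 : 0 < a) (a1 : a < 1) (b0 : 0 < β) (b1 : β < 1)
    (t0 : 0 < t) (t1 : t < 1) (hM : 0 ≤ M) (hp : ∀ i, |p i| ≤ M) :
    (∃ q, |q| ≤ M ∧ lenLL a β t p 0 = t * (1 + t * q)) ∧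
    (∃ q, |q| ≤ 2 * M ∧ lenLL a β t p 1 = 1 - t + t * (t * q)) ∧
    |lenLL a β t p 2 - β| ≤ t * (1 + 5 * M) ∧ |lenLL a β t p 3 - (1 + β)| ≤ t * (1 + 5 * M) ∧
    |lenLL a β t p 4 - β| ≤ t * (1 + 5 * M) ∧ |lenLL a β t p 5 - (1 + β)| ≤ t * (1 + 5 * M) := by
  have ht : 0 ≤ 1 - t := by linarith
  have ha : 0 ≤ 1 - a := by linarith
  have hb : 0 ≤ 1 - β := by linarith
  have key : ∀ x Q : ℝ, |Q| ≤ 1 + 5 * M → x = t * Q → |x| ≤ t * (1 + 5 * M) := by
    intro x Q hQ hx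
    rw [hx, abs_mul, abs_of_pos t0]
    exact mul_le_mul_of_nonneg_left hQ t0.le
  have hA : |p 0| ≤ M := hp 0
  have hnt : ∀ i, |-(t * p i)| ≤ M := fun i ↦ by
    rw [abs_neg]
    exact cb t0.le t1.le (hp i)
  have hB : |p 0 + -(t * p 1)| ≤ 2 * M := by
    have := ab2 hA (hnt 1)
    linarith
  refine ⟨⟨(1 - t) * (β * p 8 + (1 - β) * p 9), ?_, ?_⟩,
    ⟨t * (a * p 2 + (1 - a) * p 5), ?_, ?_⟩, ?_, ?_, ?_, ?_⟩
  · refine cb ht (by linarith) ?_
    have h1 : |β * p 8| ≤ β * M := by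
      rw [abs_mul, abs_of_pos b0]
      exact mul_le_mul_of_nonneg_left (hp 8) b0.le
    have h2 : |(1 - β) * p 9| ≤ (1 - β) * M := by
      rw [abs_mul, abs_of_nonneg hb]
      exact mul_le_mul_of_nonneg_left (hp 9) hb
    have := ab2 h1 h2
    linarith
  · rw [show lenLL a β t p 0 = t * (1 + (1 - t) * t * (β * p 8 + (1 - β) * p 9)) from rfl]
    ring
  · refine cb t0.le t1.le ?_
    have h1 : |a * p 2| ≤ M := cb a0.le a1.le (hp 2)
    have h2 : |(1 - a) * p 5| ≤ M := cb ha (by linarith) (hp 5)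
    have := ab2 h1 h2
    linarith
  · rw [show lenLL a β t p 1 = 1 - t + t ^ 3 * (a * p 2 + (1 - a) * p 5) from rfl]
    ring
  · refine key _ ((1 - β) + ((1 - t) * (1 - β) * (t * p 4) + (1 - a) * (-p 0))) ?_ ?_
    · have h1 : |1 - β| ≤ 1 := by rw [abs_of_nonneg hb]; linarith
      have h2 : |(1 - t) * (1 - β) * (t * p 4)| ≤ M :=
        cb (by positivity) (by nlinarith) (cb t0.le t1.le (hp 4))
      have h3 : |(1 - a) * (-p 0)| ≤ M := cb ha (by linarith) (by rw [abs_neg]; exact hp 0)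
      have := ab2 h1 (ab2 h2 h3)
      linarith
    · simp [lenLL]
      ring
  · refine key _ (-β + ((1 - t) * β * (-(t * p 3)) + (1 - a) * (-(p 0 + -(t * p 1))))) ?_ ?_
    · have h1 : |-β| ≤ 1 := by rw [abs_neg, abs_of_pos b0]; linarith
      have h2 : |(1 - t) * β * (-(t * p 3))| ≤ M := cb (by positivity) (by nlinarith) (hnt 3)
      have h3 : |(1 - a) * (-(p 0 + -(t * p 1)))| ≤ 2 * M :=
        cb ha (by linarith) (by rw [abs_neg]; exact hB)
      have := ab2 h1 (ab2 h2 h3)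
      linarith
    · simp [lenLL]
      ring
  · refine key _ ((1 - β) + ((1 - t) * (1 - β) * (t * p 7) + a * (p 0 + -(t * p 10)))) ?_ ?_
    · have h1 : |1 - β| ≤ 1 := by rw [abs_of_nonneg hb]; linarith
      have h2 : |(1 - t) * (1 - β) * (t * p 7)| ≤ M :=
        cb (by positivity) (by nlinarith) (cb t0.le t1.le (hp 7))
      have h3 : |a * (p 0 + -(t * p 10))| ≤ M + M := cb a0.le a1.le (ab2 (hp 0) (hnt 10))
      have := ab2 h1 (ab2 h2 h3)
      linarith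
    · simp [lenLL]
      ring
  · refine key _ (-β + ((1 - t) * β * (-(t * p 6)) +
      a * ((p 0 + -(t * p 1)) + -(t * p 11)))) ?_ ?_
    · have h1 : |-β| ≤ 1 := by rw [abs_neg, abs_of_pos b0]; linarith
      have h2 : |(1 - t) * β * (-(t * p 6))| ≤ M := cb (by positivity) (by nlinarith) (hnt 6)
      have h3 : |a * ((p 0 + -(t * p 1)) + -(t * p 11))| ≤ 2 * M + M :=
        cb a0.le a1.le (ab2 hB (hnt 11))
      have := ab2 h1 (ab2 h2 h3)
      linarith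
    · simp [lenLL]
      ring

theorem uL_gt {β : ℝ} (b0 : 0 < β) (b1 : β < 1) : β < uL β := by
  unfold uL
  have hg : 0 < 1 - β := by linarith
  rw [lt_div_iff₀ (by positivity), mul_add]
  have h1 : β * (1 / (2 * β)) = 1 / 2 := by field_simp
  have h2 : β * ((1 - β) / (2 * (1 + β) ^ 2)) < 1 / 2 := by
    rw [← mul_div_assoc, div_lt_div_iff₀ (by positivity) (by norm_num)]
    nlinarith
  rw [h1]
  linarith

/-- The limit point `LL` near is the only one with `1 ≤ v 3`, `1 ≤ v 5`, `v 0 < β`. -/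
theorem lim_LL {β b δ : ℝ} (hδ : δ ≤ β) (hδ' : δ ≤ (uL β - β) / 2)
    (hb : |b - β| < (uL β - β) / 2) {v L : Fin 6 → ℝ}
    (hL : L ∈ Lim β) (h : ∀ i, |v i - L i| < δ) (h3 : 1 ≤ v 3) (h5 : 1 ≤ v 5) (h0 : v 0 < b) :
    L = ![0, 1, β, 1 + β, β, 1 + β] := by
  have q0 := abs_lt.1 (h 0)
  have q3 := abs_lt.1 (h 3)
  have q5 := abs_lt.1 (h 5)
  have qb := abs_lt.1 hb
  unfold Lim at hL
  simp only [List.mem_cons, List.not_mem_nil, or_false] at hL
  rcases hL with rfl | rfl | rfl | rfl | rfl | rfl | rfl | rfl | rfl | rfl | rfl | rfl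
  · rfl
  all_goals
    exfalso
    simp at q0 q3 q5
    linarith [q0.1, q0.2, q3.1, q3.2, q5.1, q5.2, qb.1, qb.2]

theorem llc (h1 : LIM) (h3 : LLE) (h4 : LLS) (h5 : LLB) (h6 : LLZ) (h7 : LLN) :
    LLC := by
  classical
  intro a₀ β₀ a0 a1 b0 b1
  have huL := uL_gt b0 b1
  obtain ⟨δ₂, hδ₂, ε₂, hε₂, C, hC⟩ := h5 a₀ β₀ a0 a1 b0 b1
  obtain ⟨ε₃, hε₃, hL⟩ := h1 a₀ β₀ a0 a1 b0 b1 (min δ₂ (min β₀ ((uL β₀ - β₀) / 2)))
    (lt_min hδ₂ (lt_min b0 (by linarith)))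
  obtain ⟨hs, hz1⟩ := h6 a₀ β₀ a0 a1 b0 b1
  have hs' := abs_lt.1 hs
  obtain ⟨Z, hZ⟩ : ∃ Z : Finset (Fin 12 → ℝ), Z = {zLL a₀ β₀ 1, zLL a₀ β₀ (-1),
    zLL a₀ β₀ (sLL a₀ β₀)} := ⟨_, rfl⟩
  have hZm : ∀ p, p ∈ Z ↔ p = zLL a₀ β₀ 1 ∨ p = zLL a₀ β₀ (-1) ∨
      p = zLL a₀ β₀ (sLL a₀ β₀) := by
    intro p
    rw [hZ]
    simp only [mem_insert, mem_singleton]
  have hz0 : ∀ s, zLL a₀ β₀ s 0 = s := fun s ↦ by simp [zLL]
  have hinj0 : ∀ s s', zLL a₀ β₀ s = zLL a₀ β₀ s' → s = s' := by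
    intro s s' h
    rw [← hz0 s, ← hz0 s', h]
  have hZc : Z.card = 3 := by
    rw [hZ, card_insert_of_notMem, card_insert_of_notMem, card_singleton]
    · rw [mem_singleton]
      intro h
      have := hinj0 _ _ h
      linarith [hs'.1]
    · rw [mem_insert, mem_singleton]
      rintro (h | h)
      · have := hinj0 _ _ h
        linarith
      · have := hinj0 _ _ h
        linarith [hs'.2]
  -- the box
  obtain ⟨M, hM⟩ : ∃ M : ℝ, M = max |C| (∑ z ∈ Z, ‖z‖) := ⟨_, rfl⟩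
  have hM0 : 0 ≤ M := by
    rw [hM]
    exact le_max_of_le_left (abs_nonneg C)
  have hCM : C ≤ M := by
    rw [hM]
    exact (le_abs_self C).trans (le_max_left _ _)
  have hZM : ∀ z ∈ Z, ∀ i, |z i| ≤ M := by
    intro z hz i
    calc |z i| = ‖z i‖ := (Real.norm_eq_abs _).symm
      _ ≤ ‖z‖ := norm_le_pi_norm z i
      _ ≤ ∑ z ∈ Z, ‖z‖ := single_le_sum (f := fun z : Fin 12 → ℝ ↦ ‖z‖)
          (fun _ _ ↦ norm_nonneg _) hz
      _ ≤ M := by rw [hM]; exact le_max_right _ _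
  -- a solution of the class `LL` near is near the limit point `LL` near
  obtain ⟨ε₄, hε₄, hε₄'⟩ : ∃ ε₄ : ℝ, 0 < ε₄ ∧ ε₄ = (uL β₀ - β₀) / 2 :=
    ⟨_, by linarith, rfl⟩
  have hnear : ∀ a β t v, Near2 a₀ β₀ (min ε₂ (min ε₃ ε₄)) a β t → Sol2 a β t v → 1 ≤ v 3 →
      1 ≤ v 5 → v 0 < β → ∀ i, |parLL t v i| ≤ C := by
    intro a β t v hN hv l3 l5 l0
    have hN3 := hN.mono ((min_le_right _ _).trans (min_le_left _ _))
    have hN4 := hN.mono ((min_le_right _ _).trans (min_le_right _ _))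
    obtain ⟨L, hLm, hLv⟩ := hL a β t v hN3 hv
    have hb : |β - β₀| < (uL β₀ - β₀) / 2 := by
      rw [← hε₄']
      exact hN4.hb
    have hLe := lim_LL ((min_le_right _ _).trans (min_le_left _ _))
      ((min_le_right _ _).trans (min_le_right _ _)) hb hLm hLv l3 l5 l0
    subst hLe
    exact hC a β t v (hN.mono (min_le_left _ _)) hv (fun i ↦ (hLv i).trans_le (min_le_left _ _))
  -- the small parameter
  obtain ⟨m, hm⟩ : ∃ m : ℝ, m = min (min a₀ (1 - a₀)) (min β₀ (1 - β₀)) := ⟨_, rfl⟩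
  have hm0 : 0 < m := by
    rw [hm]
    exact lt_min (lt_min a0 (by linarith)) (lt_min b0 (by linarith))
  have hm1 : m ≤ a₀ := by
    rw [hm]
    exact (min_le_left _ _).trans (min_le_left _ _)
  have hm2 : m ≤ 1 - a₀ := by
    rw [hm]
    exact (min_le_left _ _).trans (min_le_right _ _)
  have hm3 : m ≤ β₀ := by
    rw [hm]
    exact (min_le_right _ _).trans (min_le_left _ _)
  have hm4 : m ≤ 1 - β₀ := by
    rw [hm]
    exact (min_le_right _ _).trans (min_le_right _ _)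
  obtain ⟨R, hR⟩ : ∃ R : ℝ, R = 1 + 5 * (M + 1) := ⟨_, rfl⟩
  have hR0 : 0 < R := by
    rw [hR]
    positivity
  have hR1 : 1 ≤ R := by
    rw [hR]
    linarith
  obtain ⟨η, hη⟩ : ∃ η : ℝ, η = m / (4 * R) := ⟨_, rfl⟩
  have hη0 : 0 < η := by
    rw [hη]
    positivity
  have hηR : η * R = m / 4 := by
    rw [hη]
    field_simp
  have hηm : η ≤ m / 4 := by
    rw [← hηR]
    nlinarith
  obtain ⟨ε₀, hε₀⟩ : ∃ ε₀ : ℝ, ε₀ = min (min ε₂ (min ε₃ ε₄)) η := ⟨_, rfl⟩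
  have hε₀0 : 0 < ε₀ := by
    rw [hε₀]
    exact lt_min (lt_min hε₂ (lt_min hε₃ hε₄)) hη0
  have hε₀1 : ε₀ ≤ min ε₂ (min ε₃ ε₄) := by
    rw [hε₀]
    exact min_le_left _ _
  have hε₀2 : ε₀ ≤ η := by
    rw [hε₀]
    exact min_le_right _ _
  have hpar : ∀ a β t, Near2 a₀ β₀ ε₀ a β t → 0 < a ∧ a < 1 ∧ m / 2 < β ∧ β < 1 - m / 2 ∧
      0 < t ∧ t < 1 ∧ t * R < m / 4 := by
    intro a β t hN
    have qa := abs_lt.1 hN.ha
    have qb := abs_lt.1 hN.hb
    have t0 := hN.t0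
    have t1 := hN.t1
    refine ⟨by linarith [qa.1, qa.2], by linarith [qa.1, qa.2], by linarith [qb.1, qb.2],
      by linarith [qb.1, qb.2], t0, by linarith, ?_⟩
    rw [← hηR]
    exact mul_lt_mul_of_pos_right (t1.trans_le hε₀2) hR0
  obtain ⟨S, hS⟩ : ∃ S : ℝ → ℝ → ℝ → Set (Fin 12 → ℝ), S = fun a β t ↦
      {p | Sol2 a β t (lenLL a β t p) ∧ 1 ≤ lenLL a β t p 3 ∧ 1 ≤ lenLL a β t p 5 ∧
        lenLL a β t p 0 < β ∧ parLL t (lenLL a β t p) = p} := ⟨_, rfl⟩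
  have hSm : ∀ a β t p, p ∈ S a β t ↔ Sol2 a β t (lenLL a β t p) ∧ 1 ≤ lenLL a β t p 3 ∧
      1 ≤ lenLL a β t p 5 ∧ lenLL a β t p 0 < β ∧ parLL t (lenLL a β t p) = p := by
    intro a β t p
    rw [hS]
    rfl
  obtain ⟨ε, hε, hcount⟩ := count_set2 FLL FLL_cd a₀ β₀
    (Set.Icc (fun _ ↦ -M) (fun _ ↦ M)) isCompact_Icc Z
    (fun u _ hu ↦ (hZm u).2 ((hz1 u).1 hu)) (fun z hz ↦ (hz1 z).2 ((hZm z).1 hz))
    (fun z hz v hv ↦ by
      rcases (hZm z).1 hz with rfl | rfl | rfl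
      · exact h7 a₀ β₀ a0 a1 b0 b1 hs 1 (Or.inl rfl) v hv
      · exact h7 a₀ β₀ a0 a1 b0 b1 hs (-1) (Or.inr (Or.inl rfl)) v hv
      · exact h7 a₀ β₀ a0 a1 b0 b1 hs _ (Or.inr (Or.inr rfl)) v hv)
    (Set.pi Set.univ fun _ ↦ Set.Ioo (-(M + 1)) (M + 1))
    (fun z hz ↦ by
      refine (isOpen_set_pi Set.finite_univ fun i _ ↦ isOpen_Ioo).mem_nhds ?_
      intro i _
      have := abs_le.1 (hZM z hz i)
      exact ⟨by linarith [this.1], by linarith [this.2]⟩)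
    S ε₀ hε₀0
    (fun a β t hN p hp ↦ by
      obtain ⟨q1, q2, q3, q4, q6⟩ := (hSm a β t p).1 hp
      obtain ⟨-, -, k3, k4, k5, k6, -⟩ := hpar a β t hN
      have e1 := h3 a β t _ k5 k6 (by linarith) (by linarith) q1
      have e2 := hnear a β t _ (hN.mono hε₀1) q1 q2 q3 q4
      rw [q6] at e1 e2
      refine ⟨⟨fun i ↦ ?_, fun i ↦ ?_⟩, e1.2⟩
      · have := abs_le.1 (e2 i)
        linarith [this.1]
      · have := abs_le.1 (e2 i)
        linarith [this.2])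
    (fun a β t hN p hp h0 ↦ by
      obtain ⟨k1, k2, k3, k4, k5, k6, k7⟩ := hpar a β t hN
      have hp' : ∀ i, |p i| ≤ M + 1 := by
        intro i
        have := hp i trivial
        exact abs_le.2 ⟨this.1.le, this.2.le⟩
      obtain ⟨⟨q0, hq0, l0⟩, ⟨q1, hq1, l1⟩, l2, l3, l4, l5⟩ :=
        len_bd (β := β) k1 k2 (by linarith) (by linarith) k5 k6 (by linarith : (0 : ℝ) ≤ M + 1) hp'
      rw [← hR] at l2 l3 l4 l5
      have l2' := abs_le.1 l2
      have l3' := abs_le.1 l3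
      have l4' := abs_le.1 l4
      have l5' := abs_le.1 l5
      have m1 : m ≤ 1 := by linarith
      have t8 : t < m / 4 := by
        have : t * 1 ≤ t * R := mul_le_mul_of_nonneg_left hR1 k5.le
        linarith
      have r1 : |t * q0| ≤ t * (M + 1) := by
        rw [abs_mul, abs_of_pos k5]
        exact mul_le_mul_of_nonneg_left hq0 k5.le
      have r2 : t * (M + 1) ≤ t * R := by
        refine mul_le_mul_of_nonneg_left ?_ k5.le
        rw [hR]
        linarith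
      have r1' := abs_le.1 r1
      have hlt : lenLL a β t p 0 < β := by
        rw [l0]
        have r3 : t * (1 + t * q0) ≤ t * 2 := mul_le_mul_of_nonneg_left (by linarith [r1'.2]) k5.le
        linarith
      have hpos : ∀ i, 0 < lenLL a β t p i := by
        have p0 : 0 < lenLL a β t p 0 := by
          rw [l0]
          refine mul_pos k5 ?_
          linarith [r1'.1]
        have p1 : 0 < lenLL a β t p 1 := by
          rw [l1]
          have r1 : |t * q1| ≤ t * (2 * (M + 1)) := by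
            rw [abs_mul, abs_of_pos k5]
            exact mul_le_mul_of_nonneg_left hq1 k5.le
          have r2 : t * (2 * (M + 1)) ≤ t * R := by
            refine mul_le_mul_of_nonneg_left ?_ k5.le
            rw [hR]
            linarith
          have r3 := (abs_le.1 r1).1
          have r5 : t * (-1) ≤ t * (t * q1) := mul_le_mul_of_nonneg_left (by linarith) k5.le
          linarith
        intro i
        fin_cases i
        · exact p0
        · exact p1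
        · exact show 0 < lenLL a β t p 2 by linarith [l2'.1]
        · exact show 0 < lenLL a β t p 3 by linarith [l3'.1]
        · exact show 0 < lenLL a β t p 4 by linarith [l4'.1]
        · exact show 0 < lenLL a β t p 5 by linarith [l5'.1]
      obtain ⟨s1, s2⟩ := h4 a β t p k5 k6 (by linarith) (by linarith) hpos h0
      exact (hSm a β t p).2 ⟨s1, by linarith [l3'.1], by linarith [l5'.1], hlt, s2⟩)
  refine ⟨min ε ε₀, lt_min hε hε₀0, fun a β t hN ↦ ?_⟩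
  obtain ⟨k1, k2, k3, k4, k5, k6, k7⟩ := hpar a β t (hN.mono (min_le_right _ _))
  have himg : {v : Fin 6 → ℝ | Sol2 a β t v ∧ 1 ≤ v 3 ∧ 1 ≤ v 5 ∧ v 0 < β} =
      lenLL a β t '' S a β t := by
    ext v
    constructor
    · rintro ⟨q1, q2, q3, q4⟩
      have e1 := (h3 a β t v k5 k6 (by linarith) (by linarith) q1).1
      refine ⟨parLL t v, (hSm a β t _).2 ?_, e1⟩
      rw [e1]
      exact ⟨q1, q2, q3, q4, rfl⟩
    · rintro ⟨p, hp, rfl⟩
      obtain ⟨q1, q2, q3, q4, -⟩ := (hSm a β t p).1 hp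
      exact ⟨q1, q2, q3, q4⟩
  have hinj : Set.InjOn (lenLL a β t) (S a β t) := by
    intro p hp q hq hpq
    have e1 := ((hSm a β t p).1 hp).2.2.2.2
    have e2 := ((hSm a β t q).1 hq).2.2.2.2
    rw [← e1, ← e2, hpq]
  rw [himg, Set.InjOn.ncard_image hinj, hcount a β t (hN.mono (min_le_left _ _)), hZc]

end Pool.Agent.Helper98.EIN2
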